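import Pool.Agent.Helper93.TCU.Stmts
import Pool.Agent.Helper93.TCU.Bas
import Pool.Agent.Helper3.TCS.E2

/-!
# The module E1 of section 7 of T10 (helper72)
-/

set_option autoImplicit false

namespace Pool.TCU

open Pool.TC Pool.TCM Pool.TCS Finset
open scoped Classical

section

variable {V κ : Type} [Fintype V] [Fintype κ]

/-- the letters which put `t` into `KR` -/
private noncomputable def E1R (S : CS V κ) (U : Finset V) {l : ℕ} (e : V → Fin l → κ) (w : V)
    (a : κ) (t : V) : Finset (Fin l) :=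
  univ.filter (fun i => t ∈ U ∧ t ≠ w ∧ S.r t (e t i) = S.r w a)

omit [Fintype κ] in
private theorem E1_KR (S : CS V κ) (U : Finset V) {l : ℕ} (e : V → Fin l → κ) (w : V) (a : κ)
    (ω : V → Fin l) :
    KR S U (oc e ω) w (S.r w a) = univ.filter (fun t => ω t ∈ E1R S U e w a t) := by
  ext t
  unfold KR E1R oc
  rw [mem_filter, mem_filter, mem_filter]
  exact ⟨fun h => ⟨mem_univ _, mem_univ _, h.2⟩, fun h => ⟨mem_univ _, h.2.2⟩⟩

omit [Fintype V] [Fintype κ] in
private theorem E1_disj (S : CS V κ) (U : Finset V) {l : ℕ} (e : V → Fin l → κ) (w : V) (a : κ)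
    (t : V) : Disjoint (E2R S U e w a t) (E1R S U e w a t) := by
  rw [Finset.disjoint_left]
  intro i hi hj
  simp only [E2R, E1R, mem_filter, mem_univ, true_and] at hi hj
  apply hj.2.1
  apply S.inj t w a
  rw [← hj.2.2, hi.2.2]

omit [Fintype κ] in
private theorem E1_disjK (S : CS V κ) (U : Finset V) (o : V → κ) (w : V) (a : κ) :
    Disjoint (KP S U o w a) (KR S U o w (S.r w a)) := by
  rw [Finset.disjoint_left]
  intro t hi hj
  simp only [KP, KR, mem_filter, mem_univ, true_and] at hi hj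
  apply hj.2.1
  apply S.inj t w a
  rw [← hj.2.2, hi.2.2]

private theorem E1_le1 {S : CS V κ} {U : Finset V} {L : V → Finset κ} {D l m K : ℕ}
    {x : ℝ} {q : V → κ → ℝ} {Lam : ℝ} {e : V → Fin l → κ} (h : Hyp S U L D l m K x q Lam)
    (he : Enu U L l e) (w : V) (a : κ) (t : V) : ((E1R S U e w a t).card : ℝ) ≤ 1 := by
  have h2 : (E1R S U e w a t).card ≤ 1 := by
    rw [Finset.card_le_one]
    intro i hi j hj
    simp only [E1R, mem_filter, mem_univ, true_and] at hi hj
    apply he.inj t hi.1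
    exact h.inj2 t hi.1 _ ((he.mem t hi.1 _).2 ⟨i, rfl⟩) _ ((he.mem t hi.1 _).2 ⟨j, rfl⟩)
      (hi.2.2.trans hj.2.2.symm)
  exact_mod_cast h2

private theorem E1_sumR {S : CS V κ} {U : Finset V} {L : V → Finset κ} {D l m K : ℕ}
    {x : ℝ} {q : V → κ → ℝ} {Lam : ℝ} {e : V → Fin l → κ} (h : Hyp S U L D l m K x q Lam)
    (he : Enu U L l e) {w : V} (hw : w ∈ U) {a : κ} (ha : a ∈ L w) :
    (∑ t : V, ((E1R S U e w a t).card : ℝ)) = (Cv S U L (S.r w a)).card - 1 := by
  have hmem : (w, a) ∈ Cv S U L (S.r w a) := by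
    simp only [Cv, mem_filter, mem_univ, true_and]
    exact ⟨hw, ha, trivial⟩
  have hcard : ∑ t : V, (E1R S U e w a t).card =
      ((Cv S U L (S.r w a)).erase (w, a)).card := by
    rw [← Finset.card_sigma]
    refine Finset.card_bij (fun p _ => (p.1, e p.1 p.2)) ?_ ?_ ?_
    · rintro ⟨t, i⟩ hp
      simp only [Finset.mem_sigma, E1R, mem_filter, mem_univ, true_and] at hp
      simp only [mem_erase, Cv, mem_filter, mem_univ, true_and]
      refine ⟨?_, hp.1, (he.mem t hp.1 _).2 ⟨i, rfl⟩, hp.2.2⟩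
      intro hcon
      exact hp.2.1 (Prod.mk.inj hcon).1
    · rintro ⟨t, i⟩ hp ⟨t', i'⟩ hp' heq
      simp only [Finset.mem_sigma, E1R, mem_filter, mem_univ, true_and] at hp hp'
      obtain ⟨h1, h2⟩ := Prod.mk.inj heq
      simp only at h1 h2
      subst h1
      have := he.inj t hp.1 h2
      rw [this]
    · rintro ⟨t, b⟩ hp
      simp only [mem_erase, Cv, mem_filter, mem_univ, true_and] at hp
      obtain ⟨hne, htU, hb, hr⟩ := hp
      obtain ⟨i, hi⟩ := (he.mem t htU b).1 hb
      refine ⟨⟨t, i⟩, ?_, ?_⟩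
      · simp only [Finset.mem_sigma, E1R, mem_filter, mem_univ, true_and]
        refine ⟨htU, ?_, ?_⟩
        · rintro rfl
          apply hne
          rw [h.inj2 t htU b hb a ha hr]
        · rw [hi]
          exact hr
      · simp only
        rw [hi]
  have h2 : (∑ t : V, ((E1R S U e w a t).card : ℝ)) =
      (((Cv S U L (S.r w a)).erase (w, a)).card : ℝ) := by
    rw [← hcard]
    push_cast
    rfl
  rw [h2, card_erase_of_mem hmem, Nat.cast_sub (card_pos.2 ⟨_, hmem⟩)]
  simp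

private theorem E1_sumP {S : CS V κ} {U : Finset V} {L : V → Finset κ} {l : ℕ}
    {e : V → Fin l → κ} (he : Enu U L l e) (w : V) (a : κ) :
    (∑ t : V, ((E2R S U e w a t).card : ℝ)) = (Pn S U L w a).card := by
  rw [sum_congr rfl (fun t _ => E2_card S U L e he w a t)]
  rw [sum_ite_mem, univ_inter, sum_const, nsmul_eq_mul, mul_one]

private theorem E1_meanR (hMean : St_Mean) {S : CS V κ} {U : Finset V} {L : V → Finset κ}
    {D l m K : ℕ} {x : ℝ} {q : V → κ → ℝ} {Lam : ℝ} {e : V → Fin l → κ}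
    (h : Hyp S U L D l m K x q Lam)
    (he : Enu U L l e) {w : V} (hw : w ∈ U) {a : κ} (ha : a ∈ L w) :
    mean (fun ω : V → Fin l => ((KR S U (oc e ω) w (S.r w a)).card : ℝ)) =
      ((Cv S U L (S.r w a)).card - 1) / l := by
  have : Nonempty (Fin l) := ⟨⟨0, h.l0⟩⟩
  have hm := (hMean V (Fin l) (E1R S U e w a)).1
  rw [E1_sumR h he hw ha, Fintype.card_fin] at hm
  refine Eq.trans (congrArg mean (funext fun ω => ?_)) hm
  refine congrArg Nat.cast (congrArg Finset.card ?_)
  rw [E1_KR]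
  ext t
  simp only [mem_filter]

/-- the mean of the product -/
private theorem E1_meanPR (hMean : St_Mean) {S : CS V κ} {U : Finset V} {L : V → Finset κ}
    {D l m K : ℕ} {x : ℝ} {q : V → κ → ℝ} {Lam : ℝ} {e : V → Fin l → κ}
    (h : Hyp S U L D l m K x q Lam)
    (he : Enu U L l e) {w : V} (hw : w ∈ U) {a : κ} (ha : a ∈ L w) :
    ((Pn S U L w a).card : ℝ) * ((Cv S U L (S.r w a)).card - 2) / (l : ℝ) ^ 2 ≤
    mean (fun ω : V → Fin l => ((KP S U (oc e ω) w a).card : ℝ) *
      (KR S U (oc e ω) w (S.r w a)).card) := by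
  have : Nonempty (Fin l) := ⟨⟨0, h.l0⟩⟩
  have hm := (hMean V (Fin l) (E2R S U e w a)).2.1 (E1R S U e w a) (fun _ _ => True)
  rw [Fintype.card_fin] at hm
  have h1 : mean (fun ω : V → Fin l => ((KP S U (oc e ω) w a).card : ℝ) *
      (KR S U (oc e ω) w (S.r w a)).card) =
      mean (fun ω : V → Fin l => (((univ : Finset (V × V)).filter
      (fun p => p.1 ≠ p.2 ∧ True ∧ ω p.1 ∈ E2R S U e w a p.1 ∧
        ω p.2 ∈ E1R S U e w a p.2)).card : ℝ)) := by
    refine congrArg mean (funext fun ω => ?_)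
    have h2 : ((univ : Finset (V × V)).filter
      (fun p => p.1 ≠ p.2 ∧ True ∧ ω p.1 ∈ E2R S U e w a p.1 ∧
        ω p.2 ∈ E1R S U e w a p.2)) = KP S U (oc e ω) w a ×ˢ KR S U (oc e ω) w (S.r w a) := by
      ext p
      rw [mem_product]
      constructor
      · intro hp
        rw [mem_filter] at hp
        obtain ⟨-, -, -, h3, h4⟩ := hp
        rw [E2_KP, E1_KR]
        exact ⟨by simpa using h3, by simpa using h4⟩
      · rintro ⟨h3, h4⟩
        rw [mem_filter]
        refine ⟨mem_univ _, ?_, trivial, ?_, ?_⟩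
        · intro hne
          rw [← hne] at h4
          exact Finset.disjoint_left.1 (E1_disjK S U (oc e ω) w a) h3 h4
        · rw [E2_KP] at h3
          simpa using h3
        · rw [E1_KR] at h4
          simpa using h4
    rw [h2, card_product]
    push_cast
    rfl
  have h3 : mean (fun ω : V → Fin l => (((univ : Finset (V × V)).filter
      (fun p => p.1 ≠ p.2 ∧ True ∧ ω p.1 ∈ E2R S U e w a p.1 ∧
        ω p.2 ∈ E1R S U e w a p.2)).card : ℝ)) =
      (∑ p ∈ (univ : Finset (V × V)).filter (fun p => p.1 ≠ p.2 ∧ True),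
      ((E2R S U e w a p.1).card : ℝ) * (E1R S U e w a p.2).card) / (l : ℝ) ^ 2 := by
    refine Eq.trans (congrArg mean (funext fun ω => congrArg (fun A : Finset (V × V) =>
      ((A.card : ℕ) : ℝ)) ?_)) (hm.trans ?_)
    · ext p
      simp only [mem_filter]
    · refine congrArg (fun z : ℝ => z / (l : ℝ) ^ 2) (sum_congr ?_ fun _ _ => rfl)
      ext p
      simp only [mem_filter]
  rw [h1, h3]
  refine div_le_div_of_nonneg_right ?_ (by positivity)
  have h4 : (∑ p ∈ (univ : Finset (V × V)).filter (fun p => p.1 ≠ p.2 ∧ True),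
      ((E2R S U e w a p.1).card : ℝ) * (E1R S U e w a p.2).card) =
      (∑ p : V × V, ((E2R S U e w a p.1).card : ℝ) * (E1R S U e w a p.2).card) -
      ∑ p ∈ (univ : Finset (V × V)).filter (fun p => ¬ (p.1 ≠ p.2 ∧ True)),
      ((E2R S U e w a p.1).card : ℝ) * (E1R S U e w a p.2).card := by
    rw [← sum_filter_add_sum_filter_not (univ : Finset (V × V)) (fun p => p.1 ≠ p.2 ∧ True)]
    ring
  have h5 : (∑ p : V × V, ((E2R S U e w a p.1).card : ℝ) * (E1R S U e w a p.2).card) =
      ((Pn S U L w a).card : ℝ) * ((Cv S U L (S.r w a)).card - 1) := by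
    rw [← E1_sumP he w a, ← E1_sumR h he hw ha, sum_mul_sum, Fintype.sum_prod_type]
  have h6 : (∑ p ∈ (univ : Finset (V × V)).filter (fun p => ¬ (p.1 ≠ p.2 ∧ True)),
      ((E2R S U e w a p.1).card : ℝ) * (E1R S U e w a p.2).card) ≤ (Pn S U L w a).card := by
    rw [← E1_sumP he w a]
    have h7 : (univ : Finset (V × V)).filter (fun p => ¬ (p.1 ≠ p.2 ∧ True)) =
        (univ : Finset V).image (fun t => (t, t)) := by
      ext p
      simp only [mem_filter, mem_univ, true_and, and_true, not_not, mem_image]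
      constructor
      · intro hp
        exact ⟨p.1, Prod.ext rfl hp⟩
      · rintro ⟨t, rfl⟩
        rfl
    rw [h7, sum_image (fun t _ t' _ htt => (Prod.mk.inj htt).1)]
    refine sum_le_sum fun t _ => ?_
    have h8 := E1_le1 h he w a t
    have h9 : (0 : ℝ) ≤ (E2R S U e w a t).card := Nat.cast_nonneg _
    calc ((E2R S U e w a t).card : ℝ) * (E1R S U e w a t).card
        ≤ ((E2R S U e w a t).card : ℝ) * 1 := mul_le_mul_of_nonneg_left h8 h9
      _ = _ := mul_one _
  rw [h4, h5]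
  linarith

private theorem E1_pow (k : ℕ) : (k : ℝ) ^ 2 / 2 ≤ 2 ^ k := by
  have h : k ^ 2 ≤ 2 * 2 ^ k := by
    rcases Nat.lt_or_ge k 4 with hk | hk
    · interval_cases k <;> norm_num
    · induction k, hk using Nat.le_induction with
      | base => norm_num
      | succ n hn ih =>
        rw [pow_succ 2 n]
        nlinarith
  have h2 : ((k : ℝ)) ^ 2 ≤ 2 * 2 ^ k := by exact_mod_cast h
  linarith

/-- the mean of the exponential -/
private theorem E1_exp (hMean : St_Mean) {S : CS V κ} {U : Finset V} {L : V → Finset κ}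
    {D l m K : ℕ} {x : ℝ} {q : V → κ → ℝ} {Lam : ℝ} {e : V → Fin l → κ}
    (h : Hyp S U L D l m K x q Lam)
    (he : Enu U L l e) {w : V} (hw : w ∈ U) {a : κ} (ha : a ∈ L w) :
    mean (fun ω : V → Fin l => (4 : ℝ) ^ ((KP S U (oc e ω) w a).card +
      (KR S U (oc e ω) w (S.r w a)).card)) ≤ 2 ^ 18 := by
  have : Nonempty (Fin l) := ⟨⟨0, h.l0⟩⟩
  have hm := (hMean V (Fin l) (fun t => E2R S U e w a t ∪ E1R S U e w a t)).2.2 4 (by
    rw [Fintype.card_fin]
    have h1 : (∑ t : V, ((E2R S U e w a t ∪ E1R S U e w a t).card : ℝ)) =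
        (Pn S U L w a).card + ((Cv S U L (S.r w a)).card - 1) := by
      rw [← E1_sumP he w a, ← E1_sumR h he hw ha, ← sum_add_distrib]
      refine sum_congr rfl fun t _ => ?_
      rw [card_union_of_disjoint (E1_disj S U e w a t)]
      push_cast
      rfl
    rw [h1]
    have h2 := h.Pn2 hw ha
    have h3 := h.Cv2 (S.r w a)
    linarith)
  have h1 : mean (fun ω : V → Fin l => (4 : ℝ) ^ ((KP S U (oc e ω) w a).card +
      (KR S U (oc e ω) w (S.r w a)).card)) ≤ Real.exp (3 * 4) := by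
    refine le_trans (le_of_eq (congrArg mean (funext fun ω => ?_))) hm
    refine congrArg (fun k : ℕ => (4 : ℝ) ^ k) ?_
    rw [← card_union_of_disjoint (E1_disjK S U (oc e ω) w a), E2_KP, E1_KR]
    refine congrArg Finset.card ?_
    ext t
    simp only [mem_union, mem_filter, mem_univ, true_and]
  refine h1.trans ?_
  have h2 : Real.exp (3 * 4) = Real.exp 1 ^ 12 := by
    rw [← Real.exp_nat_mul]
    norm_num
  rw [h2]
  have h3 := Real.exp_one_lt_d9
  calc Real.exp 1 ^ 12 ≤ (2.7182818286 : ℝ) ^ 12 := pow_le_pow_left₀ (Real.exp_pos 1).le h3.le 12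
    _ ≤ 2 ^ 18 := by norm_num

private theorem E1_min (M k KK : ℝ) (n K : ℕ) (hk : (n : ℝ) = k) (hKK : (K : ℝ) = KK)
    (h1 : M ≤ k ^ 2 / 2) : M - 4 ^ n * (1 / 4) ^ K ≤ min M (2 * KK ^ 2) := by
  subst hk hKK
  rw [le_min_iff]
  constructor
  · have : (0 : ℝ) ≤ 4 ^ n * (1 / 4) ^ K := by positivity
    linarith
  · by_cases hM : M ≤ 2 * (K : ℝ) ^ 2
    · have : (0 : ℝ) ≤ 4 ^ n * (1 / 4) ^ K := by positivity
      linarith
    · push Not at hM
      have h2 : 2 * K ≤ n := by
        by_contra hc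
        push Not at hc
        have h3 : (n : ℝ) ≤ 2 * K := by exact_mod_cast hc.le
        have h4 : (0 : ℝ) ≤ n := Nat.cast_nonneg n
        nlinarith
      have h3 := E1_pow n
      have h4 : (2 : ℝ) ^ n ≤ 4 ^ n * (1 / 4) ^ K := by
        have h5 : (4 : ℝ) ^ n = 2 ^ n * 2 ^ n := by
          rw [← mul_pow]
          norm_num
        have h6 : (1 : ℝ) ≤ 2 ^ n * (1 / 4) ^ K := by
          have h7 : (4 : ℝ) ^ K ≤ 2 ^ n := by
            have : (4 : ℝ) ^ K = 2 ^ (2 * K) := by
              rw [pow_mul]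
              norm_num
            rw [this]
            exact pow_le_pow_right₀ (by norm_num) h2
          rw [one_div_pow, mul_one_div, le_div_iff₀ (by positivity)]
          linarith
        rw [h5]
        have h8 : (0 : ℝ) < 2 ^ n := by positivity
        calc (2 : ℝ) ^ n = 2 ^ n * 1 := (mul_one _).symm
          _ ≤ 2 ^ n * (2 ^ n * (1 / 4) ^ K) := mul_le_mul_of_nonneg_left h6 h8.le
          _ = _ := by ring
      have h5 : (0 : ℝ) ≤ 2 * (K : ℝ) ^ 2 := by positivity
      linarith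

private theorem E1_alg (be n N2 C l err X Y E R q x : ℝ) (hbe : 0 < be) (hbe1 : be ≤ 1)
    (hl : 0 < l) (hbn : be * n ≤ 1 / 96) (hN : 0 ≤ N2)
    (hE0 : 0 ≤ E) (hE1 : E ≤ 1) (hR0 : 0 ≤ R) (hR1 : R ≤ 1) (herr : 0 ≤ err)
    (h1 : R * (1 - X) = 1 - q) (hX : X = be * n - be ^ 2 / 2 * N2) (h2 : E * (1 - Y) = 1 - x)
    (hY : Y = be * C / l) :
    (1 - q) * (1 - x) - err ≤ (1 - be * (n + (C - 1) / l) + be ^ 2 * (N2 / 2 + n * (C - 2) / l -
      err) - be ^ 3 / 2 * ((C - 1) / l * N2)) * E * R := by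
  rw [← h1, ← h2, hX, hY]
  have h3 : (1 - be * (n + (C - 1) / l) + be ^ 2 * (N2 / 2 + n * (C - 2) / l - err) -
      be ^ 3 / 2 * ((C - 1) / l * N2)) -
      (1 - (be * n - be ^ 2 / 2 * N2)) * (1 - be * C / l) =
      be / l * (1 - 2 * (be * n)) + be ^ 3 * N2 / (2 * l) - be ^ 2 * err := by
    field_simp
    ring
  have h4 : 0 ≤ be / l * (1 - 2 * (be * n)) := mul_nonneg (by positivity) (by linarith)
  have h5 : 0 ≤ be ^ 3 * N2 / (2 * l) := by positivity
  have h6 : be ^ 2 * err ≤ err := by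
    have : be ^ 2 ≤ 1 := pow_le_one₀ hbe.le hbe1
    nlinarith
  have hER0 : 0 ≤ E * R := mul_nonneg hE0 hR0
  have hER1 : E * R ≤ 1 := mul_le_one₀ hE1 hR0 hR1
  have h7 : -err ≤ (1 - be * (n + (C - 1) / l) + be ^ 2 * (N2 / 2 + n * (C - 2) / l - err) -
      be ^ 3 / 2 * ((C - 1) / l * N2)) -
      (1 - (be * n - be ^ 2 / 2 * N2)) * (1 - be * C / l) := by
    rw [h3]
    linarith
  have h8 : -err ≤ ((1 - be * (n + (C - 1) / l) + be ^ 2 * (N2 / 2 + n * (C - 2) / l - err) -
      be ^ 3 / 2 * ((C - 1) / l * N2)) -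
      (1 - (be * n - be ^ 2 / 2 * N2)) * (1 - be * C / l)) * (E * R) := by
    calc -err ≤ (-err) * (E * R) := by nlinarith
      _ ≤ _ := mul_le_mul_of_nonneg_right h7 hER0
  linarith

end

theorem thm_E1 (hMean : St_Mean) (hTrip : St_Trip) : St_E1 := by
  intro V κ _ _ S U L D l m K x q Lam e h he u hu a ha
  have : Nonempty (Fin l) := ⟨⟨0, h.l0⟩⟩
  have hcard : (0 : ℝ) < Fintype.card (V → Fin l) := by
    have : 0 < Fintype.card (V → Fin l) := Fintype.card_pos
    exact_mod_cast this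
  have hlR := h.lpos
  have m1 := E2_mean1 hMean S U L h.l0 e he u a
  have m2 := E2_mean2 hMean S U L h.l0 e he u a
  have m3 := E1_meanR hMean h he hu ha
  have m4 := E1_meanPR hMean h he hu ha
  have m5 := E1_exp hMean h he hu ha
  have m6 := hTrip V κ S U L D l m K x q Lam e h he u hu a ha
  have hE0 := h.fK_nonneg hu ha
  have hE1 := h.fK_le hu ha
  have hR0 := h.eR_nonneg (S.r u a)
  have hR1 := h.eR_le (S.r u a)
  have hbe0 := h.bet_pos
  have key := E1_alg (bet m K) ((Pn S U L u a).card / l) (npair S (Pn S U L u a) / (l : ℝ) ^ 2)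
    (Cv S U L (S.r u a)).card l (2 ^ 18 * (1 / 4) ^ K)
    (pq S U L l m K u a) (bet m K * (Cv S U L (S.r u a)).card / l)
    (1 - eR S U L l m K x (S.r u a)) (1 - fK S U L l m K q u a) (q u a) (bet m K * x / l)
    hbe0 (h.bet_le'.trans (by norm_num)) hlR
    (by have := h.betPn hu ha; rwa [mul_div_assoc] at this)
    (div_nonneg (npair_nonneg _ _) (by positivity)) (by linarith)
    (by linarith) (by linarith) (by linarith) (by positivity) (h.fK_mul hu ha)
    (by unfold pq; ring) (h.eR_mul _) rfl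
  have h2l : (0 : ℝ) ≤ 2 / l := by positivity
  refine (sub_le_self _ h2l).trans (key.trans ?_)
  -- the lower bound of the mean
  have hlow : mean (fun ω : V → Fin l => (1 - bet m K * (((KP S U (oc e ω) u a).card : ℝ) +
      (KR S U (oc e ω) u (S.r u a)).card) + bet m K ^ 2 * (npair S (KP S U (oc e ω) u a) / 2 +
      ((KP S U (oc e ω) u a).card : ℝ) * (KR S U (oc e ω) u (S.r u a)).card -
      (4 : ℝ) ^ ((KP S U (oc e ω) u a).card + (KR S U (oc e ω) u (S.r u a)).card) *
        (1 / 4) ^ K) - bet m K ^ 3 / 2 * (((KR S U (oc e ω) u (S.r u a)).card : ℝ) *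
          npair S (KP S U (oc e ω) u a))) *
        (1 - eR S U L l m K x (S.r u a)) * (1 - fK S U L l m K q u a)) ≤
      mean (fun ω : V → Fin l => Psi1 S U L l m K x q (oc e ω) u a) := by
    unfold mean
    apply div_le_div_of_nonneg_right _ hcard.le
    apply sum_le_sum
    intro ω _
    unfold Psi1
    refine mul_le_mul_of_nonneg_right (mul_le_mul_of_nonneg_right ?_ (by linarith)) (by linarith)
    have h1 := E1_min (npair S (KP S U (oc e ω) u a) / 2 +
      ((KP S U (oc e ω) u a).card : ℝ) * (KR S U (oc e ω) u (S.r u a)).card)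
      (((KP S U (oc e ω) u a).card : ℝ) + (KR S U (oc e ω) u (S.r u a)).card) K
      ((KP S U (oc e ω) u a).card + (KR S U (oc e ω) u (S.r u a)).card) K (by push_cast; rfl) rfl
      (by
        have h2 := npair_le S (KP S U (oc e ω) u a)
        have h3 : (0 : ℝ) ≤ ((KR S U (oc e ω) u (S.r u a)).card : ℝ) ^ 2 := by positivity
        nlinarith [sq_nonneg ((KP S U (oc e ω) u a).card : ℝ)])
    have h2 : (0 : ℝ) ≤ bet m K ^ 2 := by positivity
    have h3 := mul_le_mul_of_nonneg_left h1 h2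
    have h4 : (0 : ℝ) ≤ bet m K ^ 3 / 2 := by positivity
    have h5 := mul_le_mul_of_nonneg_left (min_le_left
      (((KR S U (oc e ω) u (S.r u a)).card : ℝ) * npair S (KP S U (oc e ω) u a))
      (2 * (K : ℝ) ^ 3)) h4
    linarith
  refine le_trans ?_ hlow
  -- linearity
  have hlin : ∀ f g k w : (V → Fin l) → ℝ, ∀ A B B3 c E R : ℝ,
      mean (fun ω => (1 - A * (f ω + g ω) + B * (k ω / 2 + f ω * g ω - w ω * c) -
        B3 * (g ω * k ω)) * E * R) =
      (1 - A * (mean f + mean g) + B * (mean k / 2 + mean (fun ω => f ω * g ω) - mean w * c) -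
        B3 * mean (fun ω => g ω * k ω)) * E * R := by
    intro f g k w A B B3 c E R
    unfold mean
    simp only [← sum_mul, sum_add_distrib, sum_sub_distrib, ← mul_sum, sum_const, card_univ,
      nsmul_eq_mul, ← sum_div]
    field_simp
  rw [hlin (fun ω => ((KP S U (oc e ω) u a).card : ℝ))
    (fun ω => ((KR S U (oc e ω) u (S.r u a)).card : ℝ))
    (fun ω => npair S (KP S U (oc e ω) u a))
    (fun ω => (4 : ℝ) ^ ((KP S U (oc e ω) u a).card + (KR S U (oc e ω) u (S.r u a)).card))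
    (bet m K) (bet m K ^ 2) (bet m K ^ 3 / 2) ((1 / 4) ^ K), m1, m2, m3]
  refine mul_le_mul_of_nonneg_right (mul_le_mul_of_nonneg_right ?_ (by linarith)) (by linarith)
  have h2 : (0 : ℝ) ≤ bet m K ^ 2 := by positivity
  have h3 : (0 : ℝ) ≤ (1 / 4) ^ K := by positivity
  have h4 := mul_le_mul_of_nonneg_right m5 h3
  have h5 : ((Pn S U L u a).card : ℝ) / l * ((Cv S U L (S.r u a)).card - 2) / l =
      ((Pn S U L u a).card : ℝ) * ((Cv S U L (S.r u a)).card - 2) / (l : ℝ) ^ 2 := by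
    field_simp
  have h6 : npair S (Pn S U L u a) / (l : ℝ) ^ 2 / 2 +
      ((Pn S U L u a).card : ℝ) / l * ((Cv S U L (S.r u a)).card - 2) / l -
        2 ^ 18 * (1 / 4) ^ K ≤ npair S (Pn S U L u a) / (l : ℝ) ^ 2 / 2 +
      mean (fun ω : V → Fin l => ((KP S U (oc e ω) u a).card : ℝ) *
      (KR S U (oc e ω) u (S.r u a)).card) - mean (fun ω : V → Fin l =>
        (4 : ℝ) ^ ((KP S U (oc e ω) u a).card + (KR S U (oc e ω) u (S.r u a)).card)) *
          (1 / 4) ^ K := by
    rw [h5]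
    linarith
  have h7 := mul_le_mul_of_nonneg_left h6 h2
  have h8 : (0 : ℝ) ≤ bet m K ^ 3 / 2 := by positivity
  have h9 := mul_le_mul_of_nonneg_left m6 h8
  linarith

end Pool.TCU
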